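import Pool.Agent.H144.TS.Stm

set_option autoImplicit false

/-!
# TS GRP: groups of order `n` at a good prime
-/

namespace Pool.Agent.H354.TS144

open Pool.Agent.H144.TS

theorem t_grp : S_GRP := by
  intro G _ _ p hGood
  obtain ⟨⟨hp, hpn, hp2, -⟩, hco, hdiv⟩ := hGood
  have : Fact p.Prime := ⟨hp⟩
  rw [← Nat.card_eq_fintype_card] at hpn hp2 hco hdiv
  obtain ⟨P⟩ : Nonempty (Sylow p G) := inferInstance
  have hn0 : 0 < Nat.card G := Nat.card_pos
  -- only one Sylow subgroup
  have hone : Nat.card (Sylow p G) = 1 :=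
    hdiv _ (P.card_dvd_index.trans (Subgroup.index_dvd_card _)) (card_sylow_modEq_one p G)
  have hsub : Subsingleton (Sylow p G) := (Nat.card_eq_one_iff_unique.1 hone).1
  have hnorm : (P : Subgroup G).Normal := Sylow.normal_of_subsingleton P
  -- its order is `p`
  have hfac : (Nat.card G).factorization p = 1 := by
    have h1 : 1 ≤ (Nat.card G).factorization p :=
      (hp.pow_dvd_iff_le_factorization hn0.ne').1 (by rwa [pow_one])
    have h2 : ¬ 2 ≤ (Nat.card G).factorization p := fun h =>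
      hp2 ((hp.pow_dvd_iff_le_factorization hn0.ne').2 h)
    omega
  have hcard : Nat.card (P : Subgroup G) = p := by
    have := P.card_eq_multiplicity
    rw [hfac, pow_one] at this
    exact this
  -- complement
  have hindex : (P : Subgroup G).index = Nat.card G / p := by
    have h1 := Subgroup.card_mul_index (P : Subgroup G)
    rw [hcard] at h1
    rw [← h1, Nat.mul_div_cancel_left _ hp.pos]
  have hcop : Nat.Coprime (Nat.card (P : Subgroup G)) (P : Subgroup G).index := by
    rw [hcard, hindex, Nat.Prime.coprime_iff_not_dvd hp]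
    intro hd
    apply hp2
    rw [sq]
    exact (Nat.mul_dvd_of_dvd_div hpn hd)
  obtain ⟨H, hH⟩ := Subgroup.exists_right_complement'_of_coprime hcop
  refine ⟨P, H, hnorm, hcard, hH, ?_⟩
  intro h
  set A : Subgroup G := (P : Subgroup G) with hA
  have : IsCyclic A := isCyclic_of_prime_card hcard
  obtain ⟨m, hm⟩ := MonoidHom.map_cyclic ((MulAut.conjNormal h : MulAut A).toMonoidHom)
  have hconj : ∀ a ∈ A, h * a * h⁻¹ = a ^ m := by
    intro a ha
    have h1 := congrArg Subtype.val (hm ⟨a, ha⟩)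
    simpa using h1
  have hiter : ∀ j : ℕ, ∀ a ∈ A, h ^ j * a * (h ^ j)⁻¹ = a ^ (m ^ j) := by
    intro j
    induction j with
    | zero => intro a _; simp
    | succ j ih =>
      intro a ha
      have h1 := ih a ha
      have h2 : h ^ (j + 1) * a * (h ^ (j + 1))⁻¹ = h * (h ^ j * a * (h ^ j)⁻¹) * h⁻¹ := by
        rw [pow_succ']
        group
      rw [h2, h1, hconj _ (A.zpow_mem ha _), ← zpow_mul, pow_succ]
  have hpow : ∀ a ∈ A, ∀ k : ℤ, (p : ℤ) ∣ k → a ^ k = 1 := by
    intro a ha k hk
    have h1 : orderOf a ∣ p := by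
      rw [← hcard]
      exact Subgroup.orderOf_dvd_natCard A ha
    rw [← orderOf_dvd_iff_zpow_eq_one]
    exact (Int.natCast_dvd_natCast.2 h1).trans hk
  -- a generator
  have hex : ∃ z ∈ A, orderOf z = p := by
    obtain ⟨z, hz⟩ := exists_prime_orderOf_dvd_card' (G := A) p (by rw [hcard])
    exact ⟨z, z.2, by rw [Subgroup.orderOf_coe]; exact hz⟩
  obtain ⟨z, hzA, hz⟩ := hex
  have hxn : ((m : ZMod p)) ^ (Nat.card G) = 1 := by
    have h1 := hiter (Nat.card G) z hzA
    rw [pow_card_eq_one', one_mul, inv_one, mul_one] at h1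
    have h2 : z ^ (m ^ Nat.card G - 1) = 1 := by
      rw [zpow_sub, zpow_one, ← h1, mul_inv_cancel]
    rw [← orderOf_dvd_iff_zpow_eq_one, hz] at h2
    have h3 := (ZMod.intCast_zmod_eq_zero_iff_dvd _ p).2 h2
    push_cast at h3
    exact sub_eq_zero.1 h3
  have hx0 : (m : ZMod p) ≠ 0 := by
    intro h0
    rw [h0, zero_pow hn0.ne'] at hxn
    exact zero_ne_one hxn
  have hxp : (m : ZMod p) ^ (p - 1) = 1 := ZMod.pow_card_sub_one_eq_one hx0
  set d := orderOf (m : ZMod p) with hd
  have hdn : d ∣ Nat.card G := orderOf_dvd_of_pow_eq_one hxn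
  have hdp : d ∣ p - 1 := orderOf_dvd_of_pow_eq_one hxp
  have hdcop : Nat.Coprime d p := by
    apply Nat.Coprime.coprime_dvd_left hdp
    have h1 : Nat.Coprime (p - 1) (p - 1 + 1) := Nat.coprime_self_add_right.2 (Nat.coprime_one_right _)
    rwa [Nat.sub_add_cancel hp.one_lt.le] at h1
  have hdN : d ∣ Nat.card G / p := by
    have h1 : p * (Nat.card G / p) = Nat.card G := Nat.mul_div_cancel' hpn
    rw [← h1] at hdn
    exact hdcop.dvd_of_dvd_mul_left hdn
  have hd2 : d ∣ 2 := by
    rcases hp.eq_two_or_odd' with h2 | hodd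
    · rw [h2] at hdp
      exact hdp.trans (by norm_num)
    · obtain ⟨k, hk⟩ := hodd
      have hk2 : (p - 1) / 2 = k := by omega
      rw [hk2] at hco
      have h1 : Nat.Coprime d k := (Nat.Coprime.coprime_dvd_right hdN hco).symm
      have h2 : p - 1 = 2 * k := by omega
      rw [h2] at hdp
      exact h1.dvd_of_dvd_mul_right hdp
  have hx2 : (m : ZMod p) * m = 1 := by
    rw [← sq]
    exact orderOf_dvd_iff_pow_eq_one.1 hd2
  rcases mul_self_eq_one_iff.1 hx2 with h1 | h1
  · left
    intro a ha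
    rw [hconj a ha]
    have h2 : (p : ℤ) ∣ m - 1 := by
      rw [← ZMod.intCast_zmod_eq_zero_iff_dvd]
      push_cast
      rw [h1, sub_self]
    have h3 := hpow a ha _ h2
    rw [zpow_sub, zpow_one, mul_inv_eq_one] at h3
    exact h3
  · right
    intro a ha
    rw [hconj a ha]
    have h2 : (p : ℤ) ∣ m + 1 := by
      rw [← ZMod.intCast_zmod_eq_zero_iff_dvd]
      push_cast
      rw [h1, neg_add_cancel]
    have h3 := hpow a ha _ h2
    rw [zpow_add, zpow_one] at h3
    exact eq_inv_of_mul_eq_one_left h3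

end Pool.Agent.H354.TS144
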